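import Pool.Agent.Run7.h842.FL.B1

/-!
# Piece B, part 2: the limit `m → ∞`
-/

set_option autoImplicit false

noncomputable section

open MeasureTheory Filter Topology Set
open scoped BigOperators Matrix ENNReal Pointwise

namespace Run7.h842.FL

open H712MA Run7.h519.FL

/-- the point of the disc with `|z|^(2m)` fixed tends to the circle -/
theorem pt_tendsto {q : ℝ × ℝ} (hq : q ∈ QQ) :
    Tendsto (fun m : ℕ => pt m q) atTop (𝓝 (Complex.exp ((q.2 : ℂ) * Complex.I))) := by
  have hq1 : 0 < q.1 ∧ q.1 < 1 := hq.1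
  have h1 : Tendsto (fun m : ℕ => (1 : ℝ) / (2 * m)) atTop (𝓝 0) := by
    have h2 : Tendsto (fun m : ℕ => (2 : ℝ) * m) atTop atTop :=
      tendsto_natCast_atTop_atTop.const_mul_atTop (by norm_num)
    exact tendsto_const_nhds.div_atTop h2
  have h3 : Tendsto (fun m : ℕ => q.1 ^ ((1 : ℝ) / (2 * m))) atTop (𝓝 1) := by
    have h4 : ContinuousAt (fun x : ℝ => q.1 ^ x) 0 :=
      Real.continuousAt_const_rpow hq1.1.ne'
    have h5 := h4.tendsto.comp h1
    rw [Real.rpow_zero] at h5
    exact h5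
  have h6 : Tendsto (fun m : ℕ => ((q.1 ^ ((1 : ℝ) / (2 * m)) : ℝ) : ℂ)) atTop (𝓝 ((1 : ℝ) : ℂ)) :=
    (Complex.continuous_ofReal.tendsto 1).comp h3
  have h7 := h6.mul_const (Complex.exp ((q.2 : ℂ) * Complex.I))
  simpa [pt] using h7

/-- the limit function -/
def PhiI {κ : Type} {n : ℕ} (ψ : ℝ → ℝ) (h : ℂ → ℂ) (l : κ → Fin n → ℝ)
    (f : Fin n → κ) : (Fin n → ℝ × ℝ) → ℝ≥0∞ :=
  {q | (fun i => (q i).2) ∈ Ev h l f}.indicator
    (fun q => ENNReal.ofReal (ψ (2 * ∑ i, (q i).1)))

theorem clo {h : ℂ → ℂ} (hh : Continuous h) : IsClosed (h '' Metric.closedBall 0 1) :=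
  ((isCompact_closedBall (0 : ℂ) 1).image hh).isClosed

theorem ev_iff {κ : Type} {n : ℕ} {h : ℂ → ℂ} (l : κ → Fin n → ℝ) (f : Fin n → κ)
    (h0 : dt l f ≠ 0) (θ : Fin n → ℝ) :
    θ ∈ Ev h l f ↔ ∀ k, pk (l k) (zz l f (fun i => h (Complex.exp ((θ i : ℂ) * Complex.I)))) ∈
      h '' Metric.closedBall 0 1 := by
  constructor
  · rintro ⟨z, hz1, hz2⟩
    have h1 : zz l f (fun i => h (Complex.exp ((θ i : ℂ) * Complex.I))) = z := by
      rw [← zz_pk h0 z]
      congr 1
      funext i
      exact (hz1 i).symm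
    rw [h1]
    exact hz2
  · intro hz
    exact ⟨_, fun i => pk_zz h0 _ i, hz⟩

theorem ev_closed {κ : Type} {n : ℕ} {h : ℂ → ℂ} (hh : Continuous h) (l : κ → Fin n → ℝ)
    (f : Fin n → κ) (h0 : dt l f ≠ 0) : IsClosed (Ev h l f) := by
  have h1 : Ev h l f = ⋂ k, {θ : Fin n → ℝ |
      pk (l k) (zz l f (fun i => h (Complex.exp ((θ i : ℂ) * Complex.I)))) ∈
      h '' Metric.closedBall 0 1} := by
    ext θ
    rw [ev_iff l f h0]
    simp
  rw [h1]
  refine isClosed_iInter fun k => ?_
  refine (clo hh).preimage ((pk_cont (l k)).comp (zz_cont.comp ?_))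
  refine continuous_pi fun i => hh.comp (Complex.continuous_exp.comp ?_)
  exact (Complex.continuous_ofReal.comp (continuous_apply i)).mul continuous_const

theorem Phi_ev {κ : Type} [Fintype κ] {n : ℕ} (ψ : ℝ → ℝ) {h : ℂ → ℂ} (hh : Continuous h)
    {W : Set ℂ} (hW : W = h '' Metric.ball 0 1) (l : κ → Fin n → ℝ) (f : Fin n → κ)
    (h0 : dt l f ≠ 0) (q : Fin n → ℝ × ℝ) (hq : ∀ i, q i ∈ QQ) :
    ∀ᶠ m in atTop, Phi ψ h W m l f q ≤ PhiI ψ h l f q := by
  by_cases hE : (fun i => (q i).2) ∈ Ev h l f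
  · refine Filter.Eventually.of_forall fun m => ?_
    unfold Phi PhiI
    rw [Set.indicator_of_mem (a := q) (s := {q | (fun i => (q i).2) ∈ Ev h l f}) (by exact hE)]
    exact Set.indicator_le_self _ _ _
  · have hE' := hE
    rw [ev_iff l f h0] at hE'
    push Not at hE'
    obtain ⟨k, hk⟩ := hE'
    have ht : Tendsto (fun m : ℕ => pk (l k) (zz l f (fun i => h (pt m (q i))))) atTop
        (𝓝 (pk (l k) (zz l f (fun i => h (Complex.exp (((q i).2 : ℂ) * Complex.I)))))) := by
      have h1 : Tendsto (fun m : ℕ => (fun i => h (pt m (q i)))) atTop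
          (𝓝 (fun i => h (Complex.exp (((q i).2 : ℂ) * Complex.I)))) := by
        rw [tendsto_pi_nhds]
        intro i
        exact (hh.tendsto _).comp (pt_tendsto (hq i))
      exact (((pk_cont (l k)).comp (zz_cont (l := l) (f := f))).tendsto _).comp h1
    have hev := ht.eventually ((clo hh).isOpen_compl.mem_nhds hk)
    filter_upwards [hev] with m hm
    unfold Phi PhiI
    rw [Set.indicator_of_notMem]
    · exact zero_le
    · intro hcon
      refine hm ?_
      have := hcon k
      rw [hW] at this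
      exact Set.image_mono Metric.ball_subset_closedBall this

/-- Fubini for the limit function -/
theorem fubini {n : ℕ} (u : (Fin n → ℝ) → ℝ≥0∞) (hu : Measurable u) (E : Set (Fin n → ℝ))
    (hE : MeasurableSet E) :
    ∫⁻ q in Set.pi univ (fun _ : Fin n => QQ),
      {q : Fin n → ℝ × ℝ | (fun i => (q i).2) ∈ E}.indicator (fun q => u (fun i => (q i).1)) q =
      volume (E ∩ cube n) * ∫⁻ R in Set.pi univ (fun _ : Fin n => Ioo (0 : ℝ) 1), u R := by
  have hcm : MeasurableSet (cube n) := MeasurableSet.univ_pi fun _ => measurableSet_Ioo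
  have hIm : MeasurableSet (Set.pi univ (fun _ : Fin n => Ioo (0 : ℝ) 1)) :=
    MeasurableSet.univ_pi fun _ => measurableSet_Ioo
  have hQm : MeasurableSet (Set.pi univ (fun _ : Fin n => QQ)) :=
    MeasurableSet.univ_pi fun _ => QQ_meas
  have hmp := volume_measurePreserving_arrowProdEquivProdArrow ℝ ℝ (Fin n)
  set I := Set.pi univ (fun _ : Fin n => Ioo (0 : ℝ) 1) with hI
  set F : (Fin n → ℝ) × (Fin n → ℝ) → ℝ≥0∞ :=
    fun z => (I.indicator u z.1) * ((E ∩ cube n).indicator 1 z.2) with hF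
  have hFm : Measurable F :=
    ((hu.indicator hIm).comp measurable_fst).mul
      ((measurable_one.indicator (hE.inter hcm)).comp measurable_snd)
  have e1 : ∀ q : Fin n → ℝ × ℝ, (Set.pi univ (fun _ : Fin n => QQ)).indicator
      ({q : Fin n → ℝ × ℝ | (fun i => (q i).2) ∈ E}.indicator (fun q => u (fun i => (q i).1))) q =
      F (MeasurableEquiv.arrowProdEquivProdArrow ℝ ℝ (Fin n) q) := by
    intro q
    have hfst : (MeasurableEquiv.arrowProdEquivProdArrow ℝ ℝ (Fin n) q).1 = fun i => (q i).1 := rfl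
    have hsnd : (MeasurableEquiv.arrowProdEquivProdArrow ℝ ℝ (Fin n) q).2 = fun i => (q i).2 := rfl
    simp only [hF]
    rw [hfst, hsnd]
    by_cases h1 : q ∈ Set.pi univ (fun _ : Fin n => QQ)
    · have h2 : (fun i => (q i).1) ∈ I := fun i _ => (h1 i (mem_univ i)).1
      have h3 : (fun i => (q i).2) ∈ cube n := fun i _ => (h1 i (mem_univ i)).2
      rw [Set.indicator_of_mem h1, Set.indicator_of_mem h2]
      by_cases h4 : (fun i => (q i).2) ∈ E
      · rw [Set.indicator_of_mem (by exact h4), Set.indicator_of_mem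
          (show (fun i => (q i).2) ∈ E ∩ cube n from ⟨h4, h3⟩)]
        simp
      · rw [Set.indicator_of_notMem (by exact h4), Set.indicator_of_notMem (fun h => h4 h.1)]
        simp
    · rw [Set.indicator_of_notMem h1]
      by_cases h2 : (fun i => (q i).1) ∈ I
      · have h3 : (fun i => (q i).2) ∉ E ∩ cube n := by
          intro h3
          exact h1 fun i _ => ⟨h2 i (mem_univ i), h3.2 i (mem_univ i)⟩
        rw [Set.indicator_of_notMem h3]
        simp
      · rw [Set.indicator_of_notMem h2]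
        simp
  rw [← lintegral_indicator hQm, lintegral_congr e1, hmp.lintegral_comp hFm, Measure.volume_eq_prod]
  have e2 := lintegral_prod_mul (μ := (volume : Measure (Fin n → ℝ)))
      (ν := (volume : Measure (Fin n → ℝ))) (hu.indicator hIm).aemeasurable
      (measurable_one.indicator (hE.inter hcm) :
        Measurable ((E ∩ cube n).indicator (1 : (Fin n → ℝ) → ℝ≥0∞))).aemeasurable
  have e3 : ∫⁻ z, F z ∂((volume : Measure (Fin n → ℝ)).prod (volume : Measure (Fin n → ℝ))) =
    ∫⁻ z, I.indicator u z.1 * (E ∩ cube n).indicator (1 : (Fin n → ℝ) → ℝ≥0∞) z.2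
      ∂((volume : Measure (Fin n → ℝ)).prod (volume : Measure (Fin n → ℝ))) := rfl
  rw [e3, e2, lintegral_indicator hIm, lintegral_indicator_one (hE.inter hcm), mul_comm]

/-- scaling of the cut-off integral -/
theorem scale (n : ℕ) (ψ : ℝ → ℝ) (v1 : ℝ) (hψ : Cut ψ v1) (h1 : ∀ v, ψ v ≤ 1) :
    ENNReal.ofReal (∫ s in {s : Fin n → ℝ | ∀ i, 0 < s i}, ψ (∑ i, s i)) =
      ENNReal.ofReal (2 ^ n) *
        ∫⁻ R in Set.pi univ (fun _ : Fin n => Ioo (0 : ℝ) 1), ENNReal.ofReal (ψ (2 * ∑ i, R i)) := by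
  set P : Set (Fin n → ℝ) := {s : Fin n → ℝ | ∀ i, 0 < s i} with hP
  set I := Set.pi univ (fun _ : Fin n => Ioo (0 : ℝ) 1) with hI
  have hIm : MeasurableSet I := MeasurableSet.univ_pi fun _ => measurableSet_Ioo
  have hPm : MeasurableSet P := by
    rw [hP, show {s : Fin n → ℝ | ∀ i, 0 < s i} = ⋂ i, {s | 0 < s i} by ext; simp]
    exact MeasurableSet.iInter fun i => measurableSet_lt measurable_const (measurable_pi_apply i)
  have hψc : Continuous ψ := hψ.smooth.continuous
  have hIf : volume I ≠ ∞ := by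
    rw [hI, volume_pi_pi]
    simp
  -- scaling
  have e1 : ∫ s in P, ψ (∑ i, s i) = 2 ^ n * ∫ R in P, ψ (2 * ∑ i, R i) := by
    have h2 := Measure.setIntegral_comp_smul_of_pos (volume : Measure (Fin n → ℝ))
      (fun s : Fin n → ℝ => ψ (∑ i, s i)) P (R := 2) (by norm_num)
    have h3 : (2 : ℝ) • P = P := by
      ext s
      rw [Set.mem_smul_set_iff_inv_smul_mem₀ (by norm_num)]
      simp only [hP, Set.mem_ofPred_eq, Pi.smul_apply, smul_eq_mul]
      constructor
      · intro h i
        have := h i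
        linarith
      · intro h i
        have := h i
        linarith
    rw [h3] at h2
    have h4 : ∀ x : Fin n → ℝ, ψ (∑ i, ((2 : ℝ) • x) i) = ψ (2 * ∑ i, x i) := by
      intro x
      rw [Finset.mul_sum]
      rfl
    simp only [h4] at h2
    rw [h2]
    simp only [Module.finrank_fintype_fun_eq_card, Fintype.card_fin, smul_eq_mul]
    rw [← mul_assoc, mul_inv_cancel₀ (by positivity), one_mul]
  have hsub : I ⊆ P := fun s hs i => (hs i (mem_univ i)).1
  have hz : ∀ s ∈ P \ I, ψ (2 * ∑ i, s i) = 0 := by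
    rintro s ⟨hs1, hs2⟩
    apply hψ.zero
    have : ∃ i, 1 ≤ s i := by
      by_contra hcon
      push Not at hcon
      exact hs2 fun i _ => ⟨hs1 i, hcon i⟩
    obtain ⟨i, hi⟩ := this
    have h2 : s i ≤ ∑ j, s j :=
      Finset.single_le_sum (fun j _ => (hs1 j).le) (Finset.mem_univ i)
    have := hψ.lt1
    linarith
  have e2 : ∫ R in P, ψ (2 * ∑ i, R i) = ∫ R in I, ψ (2 * ∑ i, R i) :=
    (setIntegral_eq_of_subset_of_forall_sdiff_eq_zero hPm hsub hz).symm ▸ rfl
  have hcont : Continuous fun R : Fin n → ℝ => ψ (2 * ∑ i, R i) := by fun_prop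
  have hint : IntegrableOn (fun R : Fin n → ℝ => ψ (2 * ∑ i, R i)) I := by
    refine Measure.integrableOn_of_bounded (M := 1) hIf hcont.aestronglyMeasurable ?_
    refine Filter.Eventually.of_forall fun s => ?_
    rw [Real.norm_eq_abs, abs_of_nonneg (hψ.nonneg _)]
    exact h1 _
  rw [e1, e2, ENNReal.ofReal_mul (by positivity), ofReal_integral_eq_lintegral_ofReal hint
    (Filter.Eventually.of_forall fun s => hψ.nonneg _)]

theorem B (hL : S_L) : S_B := by
  intro h h' hu κ _ r l hl hs
  have hh : Continuous h := h_cont hu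
  refine ⟨fun f h0 => (ev_closed hh l f h0).measurableSet, ?_⟩
  obtain ⟨L, hW, he, hem, H⟩ := hL h h' hu
  obtain ⟨ψ, v1, hψ, hψ1, hψi⟩ := S (1 / 2) (by norm_num) (by norm_num)
  have hψc : Continuous ψ := hψ.smooth.continuous
  set Q : Set (Fin (r + 1) → ℝ × ℝ) := Set.pi univ (fun _ : Fin (r + 1) => QQ) with hQ
  have hQm : MeasurableSet Q := MeasurableSet.univ_pi fun _ => QQ_meas
  have hQf : volume Q ≠ ∞ := by
    rw [hQ, volume_pi_pi]
    exact ENNReal.prod_ne_top fun i _ => QQ_vol
  set I2 := ∫⁻ R in Set.pi univ (fun _ : Fin (r + 1) => Ioo (0 : ℝ) 1), ENNReal.ofReal (ψ (2 * ∑ i, R i))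
    with hI2
  set I1 := ∫ s in {s : Fin (r + 1) → ℝ | ∀ i, 0 < s i}, ψ (∑ i, s i) with hI1
  have hsc : ENNReal.ofReal I1 = ENNReal.ofReal (2 ^ (r + 1)) * I2 := scale (r + 1) ψ v1 hψ hψ1
  have hI1pos : 0 < I1 := lt_of_lt_of_le (by positivity) (hψi (r + 1))
  have hI20 : I2 ≠ 0 := by
    intro hcon
    rw [hcon, mul_zero, ENNReal.ofReal_eq_zero] at hsc
    linarith
  have hI2t : I2 ≠ ∞ := by
    intro hcon
    rw [hcon, ENNReal.mul_top (by
      rw [Ne, ENNReal.ofReal_eq_zero, not_le]; positivity)] at hsc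
    exact ENNReal.ofReal_ne_top hsc
  -- the functions
  set F : ℕ → (Fin (r + 1) → ℝ × ℝ) → ℝ≥0∞ := fun m q =>
    ∑ f : Fin (r + 1) → κ, if dt l f = 0 then 0 else Phi ψ h L.W m l f q with hF
  set FI : (Fin (r + 1) → ℝ × ℝ) → ℝ≥0∞ := fun q =>
    ∑ f : Fin (r + 1) → κ, if dt l f = 0 then 0 else PhiI ψ h l f q with hFI
  have hWm : MeasurableSet L.W := L.isOpen.measurableSet
  have hΦm : ∀ m f, Measurable fun q => if dt l f = 0 then (0 : ℝ≥0∞) else Phi ψ h L.W m l f q := by
    intro m f
    split_ifs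
    · exact measurable_const
    · exact Phi_meas hψc hh hWm m l f
  have hFm : ∀ m, Measurable (F m) := fun m => Finset.measurable_fun_sum _ fun f _ => hΦm m f
  have hsum : Measurable fun q : Fin (r + 1) → ℝ × ℝ => ENNReal.ofReal (ψ (2 * ∑ i, (q i).1)) := by
    refine ENNReal.measurable_ofReal.comp (hψc.measurable.comp ?_)
    refine Measurable.const_mul ?_ _
    exact Finset.measurable_fun_sum _ fun i _ => measurable_fst.comp (measurable_pi_apply i)
  have hΦIm : ∀ f, Measurable fun q => if dt l f = 0 then (0 : ℝ≥0∞) else PhiI ψ h l f q := by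
    intro f
    split_ifs with hf
    · exact measurable_const
    · refine hsum.indicator ?_
      have h2 : Measurable fun q : Fin (r + 1) → ℝ × ℝ => (fun i => (q i).2) :=
        measurable_pi_iff.mpr fun i => measurable_snd.comp (measurable_pi_apply i)
      exact h2 (ev_closed hh l f hf).measurableSet
  -- the inequality for every m
  have key : ∀ m : ℕ, 1 ≤ m → ENNReal.ofReal (((r + 1).factorial : ℝ) * (2 * Real.pi) ^ (r + 1) * I1) ≤
      ∫⁻ q in Q, F m q := by
    intro m hm
    refine (one_m hu L hW he l hem hl hs m hm ψ v1 hψ (H m hm)).trans (le_of_eq ?_)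
    rw [hF, lintegral_finsetSum _ fun f _ => hΦm m f]
    refine Finset.sum_congr rfl fun f _ => ?_
    split_ifs
    · simp
    · rfl
  -- the limit
  have hlim : ENNReal.ofReal (((r + 1).factorial : ℝ) * (2 * Real.pi) ^ (r + 1) * I1) ≤ ∫⁻ q in Q, FI q := by
    have h1 : limsup (fun m => ∫⁻ q in Q, F m q) atTop ≤
        ∫⁻ q in Q, limsup (fun m => F m q) atTop := by
      refine limsup_lintegral_le (fun _ => ((Fintype.card (Fin (r + 1) → κ) : ℕ) : ℝ≥0∞)) hFm ?_ ?_
      · intro m
        refine Filter.Eventually.of_forall fun q => ?_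
        have h2 : ∀ f ∈ (Finset.univ : Finset (Fin (r + 1) → κ)),
            (if dt l f = 0 then (0 : ℝ≥0∞) else Phi ψ h L.W m l f q) ≤ 1 := by
          intro f _
          split_ifs
          · exact zero_le
          · unfold Phi
            refine (Set.indicator_le_self _ _ _).trans ?_
            rw [← ENNReal.ofReal_one]
            exact ENNReal.ofReal_le_ofReal (hψ1 _)
        refine (Finset.sum_le_card_nsmul _ _ _ h2).trans (le_of_eq ?_)
        simp [Finset.card_univ]
      · rw [lintegral_const, Measure.restrict_apply MeasurableSet.univ, Set.univ_inter]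
        exact ENNReal.mul_ne_top (ENNReal.natCast_ne_top _) hQf
    have h3 : ∫⁻ q in Q, limsup (fun m => F m q) atTop ≤ ∫⁻ q in Q, FI q := by
      refine setLIntegral_mono' hQm fun q hq => ?_
      refine limsup_le_of_le (by isBoundedDefault) ?_
      have h4 : ∀ f : Fin (r + 1) → κ, ∀ᶠ m in atTop,
          (if dt l f = 0 then (0 : ℝ≥0∞) else Phi ψ h L.W m l f q) ≤
          (if dt l f = 0 then (0 : ℝ≥0∞) else PhiI ψ h l f q) := by
        intro f
        split_ifs with hf
        · exact Filter.Eventually.of_forall fun _ => le_rfl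
        · exact Phi_ev ψ hh hW l f hf q fun i => hq i (mem_univ i)
      have h5 := (Filter.eventually_all.mpr h4)
      filter_upwards [h5] with m hm
      exact Finset.sum_le_sum fun f _ => hm f
    refine le_trans ?_ (h1.trans h3)
    refine le_limsup_of_frequently_le ?_ (by isBoundedDefault)
    refine Filter.Eventually.frequently ?_
    filter_upwards [eventually_ge_atTop 1] with m hm
    exact key m hm
  have hFIe : ∫⁻ q in Q, FI q = (∑ f : Fin (r + 1) → κ, if dt l f = 0 then 0 else
      volume (Ev h l f ∩ cube (r + 1))) * I2 := by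
    rw [hFI, lintegral_finsetSum _ fun f _ => hΦIm f, Finset.sum_mul]
    refine Finset.sum_congr rfl fun f _ => ?_
    split_ifs with hf
    · simp
    · have hum : Measurable fun R : Fin (r + 1) → ℝ => ENNReal.ofReal (ψ (2 * ∑ i, R i)) := by
        refine ENNReal.measurable_ofReal.comp (hψc.measurable.comp ?_)
        refine Measurable.const_mul ?_ _
        exact Finset.measurable_fun_sum _ fun i _ => measurable_pi_apply i
      exact fubini _ hum _ (ev_closed hh l f hf).measurableSet
  rw [hFIe] at hlim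
  have hfin : ENNReal.ofReal (((r + 1).factorial : ℝ) * (2 * Real.pi) ^ (r + 1) * I1) =
      ENNReal.ofReal (2 ^ (r + 1) * (r + 1).factorial * (2 * Real.pi) ^ (r + 1)) * I2 := by
    rw [ENNReal.ofReal_mul (by positivity), hsc, ← mul_assoc, ← ENNReal.ofReal_mul (by positivity)]
    congr 2
    ring
  rw [hfin] at hlim
  exact (ENNReal.mul_le_mul_iff_left hI20 hI2t).1 hlim

end Run7.h842.FL
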