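import Pool.Agent.Run7.h519.FL.Stm
import Pool.Agent.H712R2.MA.A1
import Pool.Agent.H712R2.MA.A2
import Pool.Agent.H712R2.MA.A4
import Pool.Agent.H712R2.MA.P
import Pool.Agent.H712R2.MA.C0
import Pool.Agent.H712R2.MA.C1
import Pool.Agent.H712R2.MA.C2
import Pool.Agent.H712R2.MA.C3
import Pool.Agent.H712R2.MA.C4
import Pool.Agent.H712R2.MA.C5
import Pool.Agent.H712R2.MA.C6
import Pool.Agent.H712R2.MA.F
import Pool.Agent.H712R2.MA.S

/-!
# Piece B of helper519's proof of Kalai's flag conjecture: the boundary inequality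
-/

set_option autoImplicit false

noncomputable section

open MeasureTheory Filter Topology Set
open scoped BigOperators Matrix ENNReal

namespace Run7.h842.FL

open H712MA Run7.h519.FL

/-- the Monge-Ampere inequality of the starting proof of Mahler's conjecture, for every lens -/
theorem hC6 : S_C6 := C6 (C2 P (C1 P C0 A4) A1) C3 (C4 C0 A2 A4) C5

/-! ### product formula -/

/-- a change of variables in one complex variable, applied in every variable -/
theorem pi_formula (n : ℕ) (a : ℂ → ℝ≥0∞) (ha : Measurable a) (c : ℝ≥0∞) (hc : c ≠ ∞)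
    (φ : ℝ × ℝ → ℂ) (hφ : Measurable φ) (Q : Set (ℝ × ℝ))
    (hQf : volume Q ≠ ∞)
    (H : ∀ b : ℂ → ℝ≥0∞, Measurable b → ∫⁻ p, a p * b p = c * ∫⁻ q in Q, b (φ q))
    (G : (Fin n → ℂ) → ℝ≥0∞) (hG : Measurable G) :
    ∫⁻ p : Fin n → ℂ, (∏ i, a (p i)) * G p =
      c ^ n * ∫⁻ q in Set.pi univ (fun _ : Fin n => Q), G (fun i => φ (q i)) := by
  set μ : Measure ℂ := volume.withDensity a with hμ
  have hval : ∀ s : Set ℂ, MeasurableSet s → μ s = c * volume (φ ⁻¹' s ∩ Q) := by
    intro s hs
    have h1 := H (s.indicator 1) (measurable_one.indicator hs)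
    rw [hμ, withDensity_apply _ hs, ← lintegral_indicator hs]
    have h2 : ∀ p, a p * s.indicator 1 p = s.indicator a p := by
      intro p
      by_cases hp : p ∈ s <;> simp [hp]
    rw [lintegral_congr h2] at h1
    rw [h1]
    congr 1
    have h3 : ∀ q, s.indicator (1 : ℂ → ℝ≥0∞) (φ q) = (φ ⁻¹' s).indicator 1 q := by
      intro q
      by_cases hp : φ q ∈ s <;> simp [hp]
    rw [lintegral_congr h3, lintegral_indicator_one (hφ hs), Measure.restrict_apply (hφ hs)]
  have hfin : IsFiniteMeasure μ := by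
    refine ⟨?_⟩
    rw [hval univ MeasurableSet.univ]
    refine ENNReal.mul_lt_top hc.lt_top ?_
    exact (measure_mono Set.inter_subset_right).trans_lt hQf.lt_top
  have hprod : Measurable (fun p : Fin n → ℂ => ∏ i, a (p i)) :=
    Finset.measurable_fun_prod _ fun i _ => ha.comp (measurable_pi_apply i)
  have e1 : Measure.pi (fun _ : Fin n => μ) =
      (volume : Measure (Fin n → ℂ)).withDensity (fun p => ∏ i, a (p i)) := by
    refine Measure.pi_eq fun s hs => ?_
    rw [withDensity_apply _ (MeasurableSet.univ_pi hs), ← lintegral_indicator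
      (MeasurableSet.univ_pi hs)]
    have h2 : ∀ p : Fin n → ℂ, (Set.pi univ s).indicator (fun p => ∏ i, a (p i)) p =
        ∏ i, (s i).indicator a (p i) := by
      intro p
      by_cases hp : p ∈ Set.pi univ s
      · rw [Set.indicator_of_mem hp]
        exact Finset.prod_congr rfl fun i _ => (Set.indicator_of_mem (hp i (mem_univ i)) _).symm
      · rw [Set.indicator_of_notMem hp]
        have : ∃ i, p i ∉ s i := by
          by_contra hcon
          push Not at hcon
          exact hp fun i _ => hcon i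
        obtain ⟨i, hi⟩ := this
        exact (Finset.prod_eq_zero (Finset.mem_univ i) (Set.indicator_of_notMem hi _)).symm
    rw [lintegral_congr h2, FF.lintegral_prod_fin n (fun i => (s i).indicator a)
      fun i => ha.indicator (hs i)]
    refine Finset.prod_congr rfl fun i _ => ?_
    rw [lintegral_indicator (hs i), hμ, withDensity_apply _ (hs i)]
  have hφn : Measurable (fun (q : Fin n → ℝ × ℝ) (i : Fin n) => φ (q i)) :=
    measurable_pi_iff.mpr fun i => hφ.comp (measurable_pi_apply i)
  have e2 : Measure.pi (fun _ : Fin n => μ) =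
      c ^ n • (((volume : Measure (Fin n → ℝ × ℝ)).restrict
        (Set.pi univ (fun _ : Fin n => Q))).map (fun q i => φ (q i))) := by
    refine Measure.pi_eq fun s hs => ?_
    rw [Measure.smul_apply, Measure.map_apply hφn (MeasurableSet.univ_pi hs),
      Measure.restrict_apply (hφn (MeasurableSet.univ_pi hs))]
    have h2 : (fun (q : Fin n → ℝ × ℝ) (i : Fin n) => φ (q i)) ⁻¹' Set.pi univ s ∩
        Set.pi univ (fun _ : Fin n => Q) = Set.pi univ (fun i => φ ⁻¹' (s i) ∩ Q) := by
      ext q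
      simp only [Set.mem_inter_iff, Set.mem_preimage, Set.mem_pi, Set.mem_univ, true_implies]
      exact ⟨fun h i => ⟨h.1 i, h.2 i⟩, fun h => ⟨fun i => (h i).1, fun i => (h i).2⟩⟩
    rw [h2, volume_pi_pi, smul_eq_mul]
    have h3 : c ^ n = ∏ _i : Fin n, c := by simp
    rw [h3, ← Finset.prod_mul_distrib]
    exact Finset.prod_congr rfl fun i _ => (hval _ (hs i)).symm
  have e3 : ∫⁻ p : Fin n → ℂ, (∏ i, a (p i)) * G p =
      ∫⁻ p, G p ∂(Measure.pi (fun _ : Fin n => μ)) := by
    rw [e1, lintegral_withDensity_eq_lintegral_mul _ hprod hG]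
    rfl
  rw [e3, e2, lintegral_smul_measure, lintegral_map hG hφn, smul_eq_mul]

/-! ### linear change of variables -/

/-- the point of `ℂⁿ` with given values of `n` linear forms -/
def zz {κ : Type} {n : ℕ} (l : κ → Fin n → ℝ) (f : Fin n → κ) (p : Fin n → ℂ) : E2 n :=
  ((Matrix.of fun i j => l (f i) j)⁻¹ *ᵥ (fun i => (p i).re),
    (Matrix.of fun i j => l (f i) j)⁻¹ *ᵥ (fun i => (p i).im))

variable {κ : Type} {n : ℕ} {l : κ → Fin n → ℝ} {f : Fin n → κ}

theorem zz_pk (h0 : dt l f ≠ 0) (z : E2 n) : zz l f (fun i => pk (l (f i)) z) = z := by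
  have hdet : IsUnit (Matrix.det (Matrix.of fun i j => l (f i) j : Matrix (Fin n) (Fin n) ℝ)) :=
    isUnit_iff_ne_zero.mpr h0
  have h1 : (fun i => (pk (l (f i)) z).re) =
      (Matrix.of fun i j => l (f i) j : Matrix (Fin n) (Fin n) ℝ) *ᵥ z.1 := rfl
  have h2 : (fun i => (pk (l (f i)) z).im) =
      (Matrix.of fun i j => l (f i) j : Matrix (Fin n) (Fin n) ℝ) *ᵥ z.2 := rfl
  unfold zz
  rw [h1, h2, Matrix.mulVec_mulVec, Matrix.mulVec_mulVec, Matrix.nonsing_inv_mul _ hdet,
    Matrix.one_mulVec, Matrix.one_mulVec]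

theorem pk_zz (h0 : dt l f ≠ 0) (p : Fin n → ℂ) (i : Fin n) :
    pk (l (f i)) (zz l f p) = p i := by
  have hdet : IsUnit (Matrix.det (Matrix.of fun i j => l (f i) j : Matrix (Fin n) (Fin n) ℝ)) :=
    isUnit_iff_ne_zero.mpr h0
  have h1 : ∀ v : Fin n → ℝ, l (f i) ⬝ᵥ ((Matrix.of fun i j => l (f i) j)⁻¹ *ᵥ v) = v i := by
    intro v
    have : ((Matrix.of fun i j => l (f i) j : Matrix (Fin n) (Fin n) ℝ) *ᵥ
        ((Matrix.of fun i j => l (f i) j)⁻¹ *ᵥ v)) i = v i := by
      rw [Matrix.mulVec_mulVec, Matrix.mul_nonsing_inv _ hdet, Matrix.one_mulVec]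
    exact this
  apply Complex.ext
  · exact h1 _
  · exact h1 _

theorem zz_cont : Continuous (zz l f) := by
  unfold zz
  refine Continuous.prodMk ?_ ?_
  · refine Continuous.matrix_mulVec continuous_const ?_
    exact continuous_pi fun i => Complex.continuous_re.comp (continuous_apply i)
  · refine Continuous.matrix_mulVec continuous_const ?_
    exact continuous_pi fun i => Complex.continuous_im.comp (continuous_apply i)

theorem pk_cont (v : Fin n → ℝ) : Continuous (pk v) := by
  have h : (pk v : E2 n → ℂ) = fun z => ((v ⬝ᵥ z.1 : ℝ) : ℂ) + ((v ⬝ᵥ z.2 : ℝ) : ℂ) * Complex.I := by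
    funext z
    apply Complex.ext <;> simp [pk]
  rw [h]
  have h1 : Continuous (fun z : E2 n => v ⬝ᵥ z.1) :=
    Continuous.dotProduct continuous_const continuous_fst
  have h2 : Continuous (fun z : E2 n => v ⬝ᵥ z.2) :=
    Continuous.dotProduct continuous_const continuous_snd
  exact (Complex.continuous_ofReal.comp h1).add ((Complex.continuous_ofReal.comp h2).mul
    continuous_const)

theorem cov (h0 : dt l f ≠ 0) (G : (Fin n → ℂ) → ℝ≥0∞) (hG : Measurable G) :
    ∫⁻ z : E2 n, ENNReal.ofReal ((dt l f) ^ 2) * G (fun i => pk (l (f i)) z) = ∫⁻ p, G p := by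
  set A : Matrix (Fin n) (Fin n) ℝ := Matrix.of fun i j => l (f i) j with hA
  have hdet : A.det ≠ 0 := h0
  have hm := Real.map_matrix_volume_pi_eq_smul_volume_pi hdet
  have hT : Measurable (Matrix.toLin' A) :=
    (LinearMap.continuous_of_finiteDimensional (Matrix.toLin' A)).measurable
  have hmap : Measure.map (Prod.map (Matrix.toLin' A) (Matrix.toLin' A)) (volume : Measure (E2 n)) =
      (ENNReal.ofReal |A.det⁻¹| * ENNReal.ofReal |A.det⁻¹|) • (volume : Measure (E2 n)) := by
    have h1 := Measure.map_prod_map (volume : Measure (Fin n → ℝ)) (volume : Measure (Fin n → ℝ))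
      hT hT
    rw [hm] at h1
    rw [Measure.volume_eq_prod, ← h1, Measure.prod_smul_left, Measure.prod_smul_right, smul_smul]
  set G' : E2 n → ℝ≥0∞ := fun z => G (fun i => ⟨z.1 i, z.2 i⟩) with hG'
  have hGm : Measurable G' := by
    refine hG.comp (measurable_pi_iff.mpr fun i => ?_)
    have : (fun z : E2 n => (⟨z.1 i, z.2 i⟩ : ℂ)) =
        fun z : E2 n => Complex.measurableEquivRealProd.symm (z.1 i, z.2 i) := rfl
    rw [this]
    refine Complex.measurableEquivRealProd.symm.measurable.comp ?_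
    exact ((measurable_pi_apply i).comp measurable_fst).prodMk
      ((measurable_pi_apply i).comp measurable_snd)
  have e1 : ∀ z : E2 n, G (fun i => pk (l (f i)) z) =
      G' (Prod.map (Matrix.toLin' A) (Matrix.toLin' A) z) := by
    intro z
    rfl
  have e2 : ∫⁻ z : E2 n, G' z = ∫⁻ p, G p := by
    rw [← (FF.mp_split n).lintegral_comp hGm]
  have e0 : ∫⁻ z : E2 n, ENNReal.ofReal ((dt l f) ^ 2) * G (fun i => pk (l (f i)) z) =
      ENNReal.ofReal ((dt l f) ^ 2) * ∫⁻ z : E2 n, G (fun i => pk (l (f i)) z) :=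
    lintegral_const_mul' _ _ ENNReal.ofReal_ne_top
  rw [e0, lintegral_congr e1,
    ← lintegral_map hGm (hT.prodMap hT), hmap, lintegral_smul_measure, e2, smul_eq_mul,
    ← mul_assoc]
  have e3 : ENNReal.ofReal ((dt l f) ^ 2) *
      (ENNReal.ofReal |A.det⁻¹| * ENNReal.ofReal |A.det⁻¹|) = 1 := by
    rw [← ENNReal.ofReal_mul (abs_nonneg _), ← ENNReal.ofReal_mul (sq_nonneg _)]
    have : (dt l f) ^ 2 * (|A.det⁻¹| * |A.det⁻¹|) = 1 := by
      rw [abs_mul_abs_self]
      have : dt l f = A.det := rfl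
      rw [this]
      field_simp
    rw [this, ENNReal.ofReal_one]
  rw [e3, one_mul]

end Run7.h842.FL
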