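import Pool.Agent.Run7.h842.FL.B0

/-!
# Piece B, part 1: the inequality for one `m`
-/

set_option autoImplicit false

noncomputable section

open MeasureTheory Filter Topology Set
open scoped BigOperators Matrix ENNReal

namespace Run7.h842.FL

open H712MA Run7.h519.FL

theorem dt_row_eq {κ : Type} {n : ℕ} {l : κ → Fin n → ℝ} {f : Fin n → κ} {i j : Fin n}
    (hij : i ≠ j) (h : l (f i) = l (f j)) : dt l f = 0 :=
  Matrix.det_zero_of_row_eq hij (by funext k; exact congrFun h k)

theorem dt_row_neg {κ : Type} {n : ℕ} {l : κ → Fin n → ℝ} {f : Fin n → κ} {i j : Fin n}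
    (hij : i ≠ j) (h : l (f i) = -l (f j)) : dt l f = 0 := by
  unfold dt
  set M : Matrix (Fin n) (Fin n) ℝ := Matrix.of fun i j => l (f i) j with hM
  have h1 : M.det = (Matrix.updateRow M i (M i + (1 : ℝ) • M j)).det := by
    rw [Matrix.det_updateRow_add_smul_self M hij]
  have h2 : M i + (1 : ℝ) • M j = 0 := by
    rw [one_smul]
    funext k
    have := congrFun h k
    simp only [Pi.neg_apply] at this
    simp only [hM, Pi.add_apply, Matrix.of_apply, Pi.zero_apply, this]
    ring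
  rw [h1, h2]
  exact Matrix.det_eq_zero_of_row_eq_zero i (by intro k; rw [Matrix.updateRow_self]; rfl)

theorem dt_row_zero {κ : Type} {n : ℕ} {l : κ → Fin n → ℝ} {f : Fin n → κ} {i : Fin n}
    (h : l (f i) = 0) : dt l f = 0 :=
  Matrix.det_eq_zero_of_row_eq_zero i (by intro k; exact congrFun h k)

theorem pk_neg {n : ℕ} (v : Fin n → ℝ) (z : E2 n) : pk (-v) z = -pk v z := by
  apply Complex.ext <;> simp [pk]

section lens

variable {h h' : ℂ → ℂ} (hu : Uni h h') (L : Lens) (hW : L.W = h '' Metric.ball 0 1)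
  (he : ∀ z, ‖z‖ < 1 → L.e (h z) = z)

include hu hW he in
/-- the norm of `e` is even -/
theorem norm_e_neg (p : ℂ) : ‖L.e (-p)‖ = ‖L.e p‖ := by
  by_cases hp : p ∈ L.W
  · rw [hW] at hp
    obtain ⟨z, hz, rfl⟩ := hp
    have hz1 : ‖z‖ < 1 := by simpa using hz
    rw [← hu.odd, he z hz1, he (-z) (by rwa [norm_neg]), norm_neg]
  · have hp' : -p ∉ L.W := by
      intro hq
      apply hp
      rw [hW] at hq ⊢
      obtain ⟨z, hz, hz2⟩ := hq
      refine ⟨-z, by simpa using hz, ?_⟩
      rw [hu.odd, hz2, neg_neg]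
    rw [L.off p hp, L.off (-p) hp']

include hu hW he in
/-- the potential is at least twice the sum over a basis -/
theorem VV_ge {κ : Type} [Fintype κ] {n : ℕ} (l : κ → Fin n → ℝ)
    (hs : ∀ k, ∃ k', l k' = -l k) (f : Fin n → κ) (h0 : dt l f ≠ 0) (m : ℕ) (z : E2 n) :
    2 * ∑ i, ‖L.e (pk (l (f i)) z)‖ ^ (2 * m) ≤ VV L m l z := by
  classical
  choose g hg using hs
  set w : κ → ℝ := fun k => ‖gf L m (pk (l k) z)‖ ^ 2 with hw
  have hwn : ∀ k, 0 ≤ w k := fun k => sq_nonneg _
  have hwk : ∀ k, w k = ‖L.e (pk (l k) z)‖ ^ (2 * m) := by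
    intro k
    simp only [hw, gf, norm_pow]
    rw [← pow_mul, mul_comm m 2]
  have hwg : ∀ k, w (g k) = w k := by
    intro k
    rw [hwk, hwk, hg, pk_neg, norm_e_neg hu L hW he]
  have hinj : Function.Injective f := by
    intro i j hij
    by_contra hne
    exact h0 (dt_row_eq hne (by rw [hij]))
  have hinjg : Function.Injective (fun i => g (f i)) := by
    intro i j hij
    by_contra hne
    have h1 : l (g (f i)) = l (g (f j)) := by
      have : g (f i) = g (f j) := hij
      rw [this]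
    rw [hg, hg, neg_inj] at h1
    exact h0 (dt_row_eq hne h1)
  have hdisj : Disjoint (Finset.univ.image f) (Finset.univ.image fun i => g (f i)) := by
    rw [Finset.disjoint_left]
    intro k hk1 hk2
    rw [Finset.mem_image] at hk1 hk2
    obtain ⟨i, -, hi⟩ := hk1
    obtain ⟨j, -, hj⟩ := hk2
    have h1 : l (f i) = -l (f j) := by rw [hi, ← hj, hg]
    by_cases hij : i = j
    · subst hij
      have h2 : l (f i) = 0 := by
        funext k
        have := congrFun h1 k
        simp only [Pi.neg_apply] at this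
        simp only [Pi.zero_apply]
        linarith
      exact h0 (dt_row_zero h2)
    · exact h0 (dt_row_neg hij h1)
  have h1 : VV L m l z = ∑ k, w k := rfl
  rw [h1]
  have h2 : ∑ k ∈ (Finset.univ.image f) ∪ (Finset.univ.image fun i => g (f i)), w k ≤
      ∑ k, w k :=
    Finset.sum_le_sum_of_subset_of_nonneg (Finset.subset_univ _) fun k _ _ => hwn k
  refine le_trans (le_of_eq ?_) h2
  rw [Finset.sum_union hdisj, Finset.sum_image (fun i _ j _ hij => hinj hij),
    Finset.sum_image (fun i _ j _ hij => hinjg hij)]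
  simp only [hwg]
  rw [two_mul]
  simp only [hwk]

/-- the boundary-layer function for the basis `f` -/
def Phi {κ : Type} {n : ℕ} (ψ : ℝ → ℝ) (h : ℂ → ℂ) (W : Set ℂ) (m : ℕ) (l : κ → Fin n → ℝ)
    (f : Fin n → κ) : (Fin n → ℝ × ℝ) → ℝ≥0∞ :=
  {q | ∀ k, pk (l k) (zz l f (fun i => h (pt m (q i)))) ∈ W}.indicator
    (fun q => ENNReal.ofReal (ψ (2 * ∑ i, (q i).1)))

theorem pt_meas (m : ℕ) : Measurable (pt m) := by
  unfold pt
  refine Measurable.mul ?_ ?_
  · exact Complex.measurable_ofReal.comp (measurable_fst.pow_const _)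
  · refine Complex.measurable_exp.comp ?_
    exact (Complex.measurable_ofReal.comp measurable_snd).mul_const _

include hu in
theorem h_cont : Continuous h :=
  continuous_iff_continuousAt.mpr fun z => (hu.der z).continuousAt

theorem Phi_meas {κ : Type} [Countable κ] {n : ℕ} {ψ : ℝ → ℝ} (hψ : Continuous ψ) {h : ℂ → ℂ}
    (hh : Continuous h) {W : Set ℂ} (hWm : MeasurableSet W) (m : ℕ) (l : κ → Fin n → ℝ)
    (f : Fin n → κ) : Measurable (Phi ψ h W m l f) := by
  unfold Phi
  refine Measurable.indicator ?_ ?_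
  · refine ENNReal.measurable_ofReal.comp (hψ.measurable.comp ?_)
    refine Measurable.const_mul ?_ _
    exact Finset.measurable_fun_sum _ fun i _ => measurable_fst.comp (measurable_pi_apply i)
  · have : {q : Fin n → ℝ × ℝ | ∀ k, pk (l k) (zz l f (fun i => h (pt m (q i)))) ∈ W} =
        ⋂ k, {q | pk (l k) (zz l f (fun i => h (pt m (q i)))) ∈ W} := by
      ext q; simp
    rw [this]
    refine MeasurableSet.iInter fun k => ?_
    have h1 : Measurable fun q : Fin n → ℝ × ℝ => pk (l k) (zz l f (fun i => h (pt m (q i)))) := by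
      refine (pk_cont (l k)).measurable.comp (zz_cont.measurable.comp ?_)
      exact measurable_pi_iff.mpr fun i =>
        hh.measurable.comp ((pt_meas m).comp (measurable_pi_apply i))
    exact h1 hWm

theorem QQ_meas : MeasurableSet QQ := measurableSet_Ioo.prod measurableSet_Ioo

theorem QQ_vol : volume QQ ≠ ∞ := by
  unfold QQ
  rw [Measure.volume_eq_prod, Measure.prod_prod, Real.volume_Ioo, Real.volume_Ioo]
  exact ENNReal.mul_ne_top ENNReal.ofReal_ne_top ENNReal.ofReal_ne_top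

theorem pt_norm {m : ℕ} (hm : 1 ≤ m) {q : ℝ × ℝ} (hq : q ∈ QQ) :
    ‖pt m q‖ < 1 ∧ ‖pt m q‖ ^ (2 * m) = q.1 := by
  have hq1 : 0 < q.1 ∧ q.1 < 1 := hq.1
  have hmr : (0 : ℝ) < 2 * m := by
    have : (0 : ℝ) < m := by exact_mod_cast hm
    linarith
  have hn : ‖pt m q‖ = q.1 ^ ((1 : ℝ) / (2 * m)) := by
    unfold pt
    rw [norm_mul, Complex.norm_exp_ofReal_mul_I, mul_one, Complex.norm_real, Real.norm_eq_abs,
      abs_of_nonneg (Real.rpow_nonneg hq1.1.le _)]
  refine ⟨?_, ?_⟩
  · rw [hn]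
    exact Real.rpow_lt_one hq1.1.le hq1.2 (by positivity)
  · rw [hn, ← Real.rpow_natCast, ← Real.rpow_mul hq1.1.le]
    have : (1 : ℝ) / (2 * m) * ((2 * m : ℕ) : ℝ) = 1 := by
      push_cast
      field_simp
    rw [this, Real.rpow_one]

theorem af_nn (L : Lens) (m : ℕ) (p : ℂ) : 0 ≤ af L m p := sq_nonneg _

theorem af_meas (L : Lens) (hem : Measurable L.e) (m : ℕ) : Measurable (af L m) := by
  classical
  have h1 : Measurable (gd L m) := by
    unfold gd
    refine Measurable.ite L.isOpen.measurableSet ?_ measurable_const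
    exact ((hem.pow_const _).const_mul _).mul (measurable_deriv _)
  exact (measurable_norm.comp h1).pow_const _

include hu hW he in
/-- the inequality for one basis -/
theorem one_basis {κ : Type} [Fintype κ] {n : ℕ} (l : κ → Fin n → ℝ) (hem : Measurable L.e)
    (hl : Spans l) (hs : ∀ k, ∃ k', l k' = -l k) (f : Fin n → κ) (h0 : dt l f ≠ 0) (m : ℕ)
    (hm : 1 ≤ m) (ψ : ℝ → ℝ) (v1 : ℝ) (hψ : Cut ψ v1)
    (H : ∀ b : ℂ → ℝ≥0∞, Measurable b →
    ∫⁻ p, ENNReal.ofReal (af L m p) * b p =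
      ENNReal.ofReal ((m : ℝ) / 2) * ∫⁻ q in QQ, b (h (pt m q))) :
    ∫⁻ z : E2 n, ENNReal.ofReal ((dt l f) ^ 2) *
        ((∏ i, ENNReal.ofReal (af L m (pk (l (f i)) z))) * ENNReal.ofReal (ψ (VV L m l z))) ≤
      ENNReal.ofReal ((m : ℝ) / 2) ^ n *
        ∫⁻ q in Set.pi univ (fun _ : Fin n => QQ), Phi ψ h L.W m l f q := by
  have hP := P κ n L m hm l hl
  have hψc : Continuous ψ := hψ.smooth.continuous
  have hVc : Continuous (VV L m l) := hP.2.2.2.1
  have hVm : Measurable (fun p : Fin n → ℂ => ENNReal.ofReal (ψ (VV L m l (zz l f p)))) :=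
    ENNReal.measurable_ofReal.comp ((hψc.comp (hVc.comp zz_cont)).measurable)
  have ham : Measurable (fun p : ℂ => ENNReal.ofReal (af L m p)) :=
    ENNReal.measurable_ofReal.comp (af_meas L hem m)
  have e1 : ∀ z : E2 n, ENNReal.ofReal ((dt l f) ^ 2) *
        ((∏ i, ENNReal.ofReal (af L m (pk (l (f i)) z))) * ENNReal.ofReal (ψ (VV L m l z))) =
      ENNReal.ofReal ((dt l f) ^ 2) * (fun p : Fin n → ℂ =>
        (∏ i, ENNReal.ofReal (af L m (p i))) * ENNReal.ofReal (ψ (VV L m l (zz l f p))))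
        (fun i => pk (l (f i)) z) := by
    intro z
    simp only [zz_pk h0]
  have hGm : Measurable (fun p : Fin n → ℂ =>
      (∏ i, ENNReal.ofReal (af L m (p i))) * ENNReal.ofReal (ψ (VV L m l (zz l f p)))) :=
    (Finset.measurable_fun_prod _ fun i _ => ham.comp (measurable_pi_apply i)).mul hVm
  rw [lintegral_congr e1, cov h0 _ hGm,
    pi_formula n _ ham (ENNReal.ofReal ((m : ℝ) / 2)) ENNReal.ofReal_ne_top (fun q => h (pt m q))
      ((h_cont hu).measurable.comp (pt_meas m)) QQ QQ_vol H _ hVm]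
  refine mul_le_mul_right ?_ _
  refine setLIntegral_mono' (MeasurableSet.univ_pi (t := fun _ : Fin n => QQ) fun _ => QQ_meas) fun q hq => ?_
  unfold Phi
  set p : Fin n → ℂ := fun i => h (pt m (q i)) with hp
  by_cases hz : ∀ k, pk (l k) (zz l f p) ∈ L.W
  · rw [Set.indicator_of_mem (by exact hz)]
    refine ENNReal.ofReal_le_ofReal (hψ.anti ?_)
    refine le_trans (le_of_eq ?_) (VV_ge hu L hW he l hs f h0 m (zz l f p))
    congr 1
    refine Finset.sum_congr rfl fun i _ => ?_
    have hqi : q i ∈ QQ := hq i (mem_univ i)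
    rw [pk_zz h0, hp, he _ (pt_norm hm hqi).1, (pt_norm hm hqi).2]
  · have h1 : zz l f p ∉ UU L l := hz
    have h2 := hP.2.2.1 _ h1
    rw [hψ.zero _ (hψ.lt1.le.trans h2), ENNReal.ofReal_zero]
    exact zero_le

include hu hW he in
open Classical in
/-- the inequality for one `m` -/
theorem one_m {κ : Type} [Fintype κ] {r : ℕ} (l : κ → Fin (r + 1) → ℝ) (hem : Measurable L.e)
    (hl : Spans l) (hs : ∀ k, ∃ k', l k' = -l k) (m : ℕ)
    (hm : 1 ≤ m) (ψ : ℝ → ℝ) (v1 : ℝ) (hψ : Cut ψ v1)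
    (H : ∀ b : ℂ → ℝ≥0∞, Measurable b →
    ∫⁻ p, ENNReal.ofReal (af L m p) * b p =
      ENNReal.ofReal ((m : ℝ) / 2) * ∫⁻ q in QQ, b (h (pt m q))) :
    ENNReal.ofReal (((r + 1).factorial : ℝ) * (2 * Real.pi) ^ (r + 1) *
        ∫ s in {s : Fin (r + 1) → ℝ | ∀ i, 0 < s i}, ψ (∑ i, s i)) ≤
      ∑ f : Fin (r + 1) → κ, if dt l f = 0 then 0 else
        ∫⁻ q in Set.pi univ (fun _ : Fin (r + 1) => QQ), Phi ψ h L.W m l f q := by
  have h6 := hC6 κ r L m hm l hl ψ v1 hψ
  have hP := P κ (r + 1) L m hm l hl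
  have hψc : Continuous ψ := hψ.smooth.continuous
  have hVc : Continuous (VV L m l) := hP.2.2.2.1
  have ham : Measurable (fun p : ℂ => ENNReal.ofReal (af L m p)) :=
    ENNReal.measurable_ofReal.comp (af_meas L hem m)
  have hmr : (0 : ℝ) < m := by exact_mod_cast hm
  set I1 := ∫ s in {s : Fin (r + 1) → ℝ | ∀ i, 0 < s i}, ψ (∑ i, s i) with hI1
  set K := ENNReal.ofReal ((m : ℝ) / 2) ^ (r + 1) with hK
  have hK0 : K ≠ 0 := pow_ne_zero _ (by
    rw [Ne, ENNReal.ofReal_eq_zero, not_le]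
    positivity)
  have hKt : K ≠ ∞ := ENNReal.pow_ne_top ENNReal.ofReal_ne_top
  have e1 : ENNReal.ofReal (((r + 1).factorial : ℝ) * (m * Real.pi) ^ (r + 1) * I1) ≤
      ∑ f : Fin (r + 1) → κ, if dt l f = 0 then 0 else
        K * ∫⁻ q in Set.pi univ (fun _ : Fin (r + 1) => QQ), Phi ψ h L.W m l f q := by
    calc ENNReal.ofReal (((r + 1).factorial : ℝ) * (m * Real.pi) ^ (r + 1) * I1)
        ≤ ENNReal.ofReal (∫ z : E2 (r + 1), ψ (VV L m l z) *
            DS l (fun k => af L m (pk (l k) z))) := ENNReal.ofReal_le_ofReal h6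
      _ ≤ ‖∫ z : E2 (r + 1), ψ (VV L m l z) * DS l (fun k => af L m (pk (l k) z))‖ₑ := by
          rw [← ofReal_norm]
          exact ENNReal.ofReal_le_ofReal (le_abs_self _)
      _ ≤ ∫⁻ z : E2 (r + 1), ‖ψ (VV L m l z) * DS l (fun k => af L m (pk (l k) z))‖ₑ :=
          enorm_integral_le_lintegral_enorm _
      _ = ∫⁻ z : E2 (r + 1), ∑ f : Fin (r + 1) → κ, ENNReal.ofReal ((dt l f) ^ 2) *
        ((∏ i, ENNReal.ofReal (af L m (pk (l (f i)) z))) * ENNReal.ofReal (ψ (VV L m l z))) := by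
          refine lintegral_congr fun z => ?_
          have hpr : ∀ f : Fin (r + 1) → κ, 0 ≤ ∏ i, af L m (pk (l (f i)) z) := fun f =>
            Finset.prod_nonneg fun i _ => sq_nonneg _
          have hD : 0 ≤ DS l (fun k => af L m (pk (l k) z)) :=
            Finset.sum_nonneg fun f _ => mul_nonneg (hpr f) (sq_nonneg _)
          rw [← ofReal_norm, Real.norm_eq_abs, abs_of_nonneg (mul_nonneg (hψ.nonneg _) hD)]
          unfold DS
          rw [Finset.mul_sum, ENNReal.ofReal_sum_of_nonneg]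
          · refine Finset.sum_congr rfl fun f _ => ?_
            rw [ENNReal.ofReal_mul (hψ.nonneg _), ENNReal.ofReal_mul (hpr f),
              ENNReal.ofReal_prod_of_nonneg (fun i _ => af_nn L m (pk (l (f i)) z))]
            ring
          · intro f _
            exact mul_nonneg (hψ.nonneg _) (mul_nonneg (hpr f) (sq_nonneg _))
      _ = ∑ f : Fin (r + 1) → κ, ∫⁻ z : E2 (r + 1), ENNReal.ofReal ((dt l f) ^ 2) *
        ((∏ i, ENNReal.ofReal (af L m (pk (l (f i)) z))) * ENNReal.ofReal (ψ (VV L m l z))) := by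
          rw [lintegral_finsetSum]
          intro f _
          refine Measurable.const_mul (Measurable.mul ?_ ?_) _
          · exact Finset.measurable_fun_prod _ fun i _ => ham.comp (pk_cont _).measurable
          · exact ENNReal.measurable_ofReal.comp (hψc.comp hVc).measurable
      _ ≤ _ := by
          refine Finset.sum_le_sum fun f _ => ?_
          split_ifs with hf
          · rw [hf]
            simp
          · exact one_basis hu L hW he l hem hl hs f hf m hm ψ v1 hψ H
  have e2 : ENNReal.ofReal (((r + 1).factorial : ℝ) * (m * Real.pi) ^ (r + 1) * I1) =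
      K * ENNReal.ofReal (((r + 1).factorial : ℝ) * (2 * Real.pi) ^ (r + 1) * I1) := by
    rw [hK, ← ENNReal.ofReal_pow (by positivity), ← ENNReal.ofReal_mul (by positivity)]
    congr 1
    have : ((m : ℝ) * Real.pi) ^ (r + 1) = ((m : ℝ) / 2) ^ (r + 1) * (2 * Real.pi) ^ (r + 1) := by
      rw [← mul_pow]
      congr 1
      ring
    rw [this]
    ring
  have e3 : (∑ f : Fin (r + 1) → κ, if dt l f = 0 then 0 else
        K * ∫⁻ q in Set.pi univ (fun _ : Fin (r + 1) => QQ), Phi ψ h L.W m l f q) =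
      K * ∑ f : Fin (r + 1) → κ, if dt l f = 0 then 0 else
        ∫⁻ q in Set.pi univ (fun _ : Fin (r + 1) => QQ), Phi ψ h L.W m l f q := by
    rw [Finset.mul_sum]
    refine Finset.sum_congr rfl fun f _ => ?_
    split_ifs <;> simp
  rw [e2, e3] at e1
  exact (ENNReal.mul_le_mul_iff_right hK0 hKt).1 e1

end lens

end Run7.h842.FL
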